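import Mathlib

/-!
# MP_be7f3b_co, Q1: the colorful Fingerhut problem in Hilbert space has a positive answer

For every `n ≥ 1`, every family of `n` red and `n` blue points of `ℓ²` and every red-blue max-sum
matching `{r_i b_i}` there is a point `o` with `‖r_i - o‖ + ‖b_i - o‖ ≤ √2 ‖r_i - b_i‖` for all `i`.

## Proof
Let `F_i(o) = ‖r_i - o‖ + ‖b_i - o‖ - √2 ‖r_i - b_i‖` and let `o` minimise `∑ (F_i(o)⁺)²` over the
(finite-dimensional) span of the points.  Put `w_i = F_i(o)⁺`, `u_i = (r_i - o)/‖r_i - o‖`,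
`v_i = (b_i - o)/‖b_i - o‖`.  The first order condition is `∑ w_i (u_i + v_i) = 0`.
With `W = ∑ w_i > 0` and `m = W⁻¹ ∑ w_i u_i = - W⁻¹ ∑ w_j v_j` the numbers
`p_{ij} = w_i w_j ‖u_i - v_j - m‖ / (√2 W)` have row sums `≤ w_i` and column sums `≤ w_j`
(Cauchy-Schwarz), and `∑ p_{ij} ‖r_i - b_j‖ ≥ ∑ w_i (‖r_i - o‖ + ‖b_i - o‖) / √2`
(as `‖r_i - b_j‖ ‖u_i - v_j - m‖ ≥ ⟪r_i - b_j, u_i - v_j - m⟫`).
By Birkhoff's theorem and the maximality of the matching, `∑ p_{ij} ‖r_i - b_j‖ ≤ ∑ w_i ‖r_i - b_i‖`,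
so `∑ w_i F_i(o) ≤ 0`; but `∑ w_i F_i(o) = ∑ w_i²`.
-/

namespace Pool.Agent.Results.MP_be7f3b_co.ColorfulFingerhut

open Filter Topology RealInnerProductSpace

/-! ## The transport (Birkhoff) lemma -/

section Transport

variable {ι : Type*} [Fintype ι] [DecidableEq ι]

/-- A doubly stochastic average of a matrix is at most its maximal permutation sum. -/
lemma sum_le_of_doublyStochastic (Q d : Matrix ι ι ℝ) (hQ : Q ∈ doublyStochastic ℝ ι) (C : ℝ)
    (hd : ∀ σ : Equiv.Perm ι, ∑ i, d i (σ i) ≤ C) :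
    ∑ i, ∑ j, Q i j * d i j ≤ C := by
  obtain ⟨l, hl0, hl1, hl⟩ := exists_eq_sum_perm_of_mem_doublyStochastic hQ
  have h1 : ∀ i j, Q i j = ∑ σ : Equiv.Perm ι, l σ * (if σ i = j then 1 else 0) := by
    intro i j
    rw [← hl, Matrix.sum_apply]
    refine Finset.sum_congr rfl fun σ _ => ?_
    rw [Matrix.smul_apply, smul_eq_mul]
    congr 1
    simp [Equiv.Perm.permMatrix, PEquiv.toMatrix_apply, Equiv.toPEquiv_apply]
  have h2 : ∑ i, ∑ j, Q i j * d i j = ∑ σ : Equiv.Perm ι, l σ * ∑ i, d i (σ i) := by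
    simp_rw [h1, Finset.sum_mul]
    have : ∀ i : ι, ∑ j : ι, ∑ σ : Equiv.Perm ι, l σ * (if σ i = j then (1 : ℝ) else 0) * d i j
        = ∑ σ : Equiv.Perm ι, l σ * d i (σ i) := by
      intro i
      rw [Finset.sum_comm]
      refine Finset.sum_congr rfl fun σ _ => ?_
      simp
    simp_rw [this]
    rw [Finset.sum_comm]
    refine Finset.sum_congr rfl fun σ _ => ?_
    rw [Finset.mul_sum]
  rw [h2]
  calc ∑ σ : Equiv.Perm ι, l σ * ∑ i, d i (σ i) ≤ ∑ σ : Equiv.Perm ι, l σ * C :=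
        Finset.sum_le_sum fun σ _ => mul_le_mul_of_nonneg_left (hd σ) (hl0 σ)
    _ = C := by rw [← Finset.sum_mul, hl1, one_mul]

/-- Weighted version: a nonnegative matrix with row and column sums at most `w`. -/
lemma transport_le (w : ι → ℝ) (hw : ∀ i, 0 ≤ w i) (p d : ι → ι → ℝ)
    (hp : ∀ i j, 0 ≤ p i j) (hd0 : ∀ i j, 0 ≤ d i j)
    (hrow : ∀ i, ∑ j, p i j ≤ w i) (hcol : ∀ j, ∑ i, p i j ≤ w j)
    (hd : ∀ σ : Equiv.Perm ι, ∑ i, d i (σ i) ≤ ∑ i, d i i) :
    ∑ i, ∑ j, p i j * d i j ≤ ∑ i, w i * d i i := by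
  set α : ι → ℝ := fun i => w i - ∑ j, p i j with hα
  set β : ι → ℝ := fun j => w j - ∑ i, p i j with hβ
  have hα0 : ∀ i, 0 ≤ α i := fun i => sub_nonneg.2 (hrow i)
  have hβ0 : ∀ j, 0 ≤ β j := fun j => sub_nonneg.2 (hcol j)
  set T : ℝ := ∑ i, α i with hT
  have hTβ : T = ∑ j, β j := by
    rw [hT]
    simp only [hα, hβ, Finset.sum_sub_distrib]
    rw [Finset.sum_comm]
  have hT0 : 0 ≤ T := Finset.sum_nonneg fun i _ => hα0 i
  set q : ι → ι → ℝ := fun i j => α i * β j / T with hq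
  have hq0 : ∀ i j, 0 ≤ q i j := fun i j => div_nonneg (mul_nonneg (hα0 i) (hβ0 j)) hT0
  have hqrow : ∀ i, ∑ j, q i j = α i := by
    intro i
    simp only [hq]
    rw [← Finset.sum_div, ← Finset.mul_sum, ← hTβ]
    rcases eq_or_ne T 0 with h | h
    · have : α i = 0 := by
        have := (Finset.sum_eq_zero_iff_of_nonneg fun i _ => hα0 i).1 (hT.symm.trans h)
        exact this i (Finset.mem_univ i)
      rw [this]; simp
    · field_simp
  have hqcol : ∀ j, ∑ i, q i j = β j := by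
    intro j
    simp only [hq]
    rw [← Finset.sum_div, ← Finset.sum_mul, ← hT]
    rcases eq_or_ne T 0 with h | h
    · have : β j = 0 := by
        have := (Finset.sum_eq_zero_iff_of_nonneg fun j _ => hβ0 j).1 (hTβ.symm.trans h)
        exact this j (Finset.mem_univ j)
      rw [this]; simp
    · field_simp
  set c : ℝ := 1 + ∑ i, w i with hc
  have hc0 : 0 < c := by
    have : 0 ≤ ∑ i, w i := Finset.sum_nonneg fun i _ => hw i
    linarith
  have hwc : ∀ i, w i ≤ c := by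
    intro i
    have : w i ≤ ∑ i, w i := Finset.single_le_sum (fun i _ => hw i) (Finset.mem_univ i)
    linarith
  set Q : Matrix ι ι ℝ := fun i j => (p i j + q i j + (if i = j then c - w i else 0)) / c with hQ
  have hQmem : Q ∈ doublyStochastic ℝ ι := by
    rw [mem_doublyStochastic_iff_sum]
    refine ⟨fun i j => ?_, fun i => ?_, fun j => ?_⟩
    · simp only [hQ]
      refine div_nonneg ?_ hc0.le
      have h3 : 0 ≤ (if i = j then c - w i else 0) := by
        split_ifs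
        · linarith [hwc i]
        · exact le_rfl
      linarith [hp i j, hq0 i j]
    · simp only [hQ]
      rw [← Finset.sum_div, Finset.sum_add_distrib, Finset.sum_add_distrib, hqrow]
      simp only [Finset.sum_ite_eq, Finset.mem_univ, if_true, hα]
      rw [div_eq_one_iff_eq hc0.ne']
      ring
    · simp only [hQ]
      rw [← Finset.sum_div, Finset.sum_add_distrib, Finset.sum_add_distrib, hqcol]
      simp only [Finset.sum_ite_eq', Finset.mem_univ, if_true, hβ]
      rw [div_eq_one_iff_eq hc0.ne']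
      ring
  have hmain := sum_le_of_doublyStochastic Q (fun i j => d i j) hQmem (∑ i, d i i) hd
  have hexp : ∑ i, ∑ j, Q i j * d i j
      = (∑ i, ∑ j, p i j * d i j + ∑ i, ∑ j, q i j * d i j + ∑ i, (c - w i) * d i i) / c := by
    have h4 : ∀ i, ∑ j, Q i j * d i j
        = (∑ j, p i j * d i j + ∑ j, q i j * d i j + (c - w i) * d i i) / c := by
      intro i
      have h5 : ∀ j, Q i j * d i j
          = (p i j * d i j + q i j * d i j + (if i = j then (c - w i) * d i i else 0)) / c := by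
        intro j
        simp only [hQ]
        split_ifs with h
        · subst h; ring
        · ring
      simp_rw [h5]
      rw [← Finset.sum_div, Finset.sum_add_distrib, Finset.sum_add_distrib]
      simp
    simp_rw [h4]
    rw [← Finset.sum_div, Finset.sum_add_distrib, Finset.sum_add_distrib]
  rw [hexp, div_le_iff₀ hc0] at hmain
  have hqd : 0 ≤ ∑ i, ∑ j, q i j * d i j :=
    Finset.sum_nonneg fun i _ => Finset.sum_nonneg fun j _ => mul_nonneg (hq0 i j) (hd0 i j)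
  have h6 : ∑ i, (c - w i) * d i i = (∑ i, d i i) * c - ∑ i, w i * d i i := by
    rw [Finset.sum_mul, ← Finset.sum_sub_distrib]
    exact Finset.sum_congr rfl fun i _ => by ring
  rw [h6] at hmain
  linarith

end Transport

/-! ## The key inequality -/

section Key

variable {ι : Type*} [Fintype ι]
variable {E : Type*} [NormedAddCommGroup E] [InnerProductSpace ℝ E]

/-- The normalised vector `a / ‖a‖` (zero when `a = 0`). -/
noncomputable def unit (a : E) : E := (‖a‖)⁻¹ • a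

lemma norm_unit_le (a : E) : ‖unit a‖ ≤ 1 := by
  unfold unit
  rcases eq_or_ne a 0 with h | h
  · simp [h]
  · rw [norm_smul, norm_inv, norm_norm, inv_mul_cancel₀ (norm_ne_zero_iff.2 h)]

lemma norm_smul_unit (a : E) : ‖a‖ • unit a = a := by
  unfold unit
  rcases eq_or_ne a 0 with h | h
  · simp [h]
  · rw [smul_smul, mul_inv_cancel₀ (norm_ne_zero_iff.2 h), one_smul]

lemma norm_mul_norm_unit_sq (a : E) : ‖a‖ * ‖unit a‖ ^ 2 = ‖a‖ := by
  unfold unit
  rcases eq_or_ne a 0 with h | h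
  · simp [h]
  · rw [norm_smul, norm_inv, norm_norm, inv_mul_cancel₀ (norm_ne_zero_iff.2 h)]; ring

/-- Row estimate: if `∑ w_j v_j = - W m` then `∑ w_j ‖x - v_j - m‖ ≤ √2 W` for `‖x‖ ≤ 1`. -/
lemma row_sum_le (w : ι → ℝ) (hw : ∀ i, 0 ≤ w i) (v : ι → E) (hv : ∀ i, ‖v i‖ ≤ 1) (x m : E)
    (hx : ‖x‖ ≤ 1) (hm : ∑ j, w j • v j = -((∑ j, w j) • m)) :
    ∑ j, w j * ‖x - v j - m‖ ≤ √2 * ∑ j, w j := by
  set W := ∑ j, w j with hW
  have hW0 : 0 ≤ W := Finset.sum_nonneg fun i _ => hw i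
  have hsq : ∀ j, ‖x - v j - m‖ ^ 2 = ‖x - m‖ ^ 2 - 2 * ⟪x - m, v j⟫ + ‖v j‖ ^ 2 := by
    intro j
    have : x - v j - m = (x - m) - v j := by abel
    rw [this, norm_sub_sq_real]
  have hinner : ∑ j, w j * ⟪x - m, v j⟫ = - (W * ⟪x - m, m⟫) := by
    have h1 : ∑ j, w j * ⟪x - m, v j⟫ = ⟪x - m, ∑ j, w j • v j⟫ := by
      rw [inner_sum]
      exact Finset.sum_congr rfl fun j _ => by rw [real_inner_smul_right]
    rw [h1, hm, inner_neg_right, real_inner_smul_right]
  have hsum : ∑ j, w j * ‖x - v j - m‖ ^ 2 ≤ 2 * W := by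
    have h1 : ∑ j, w j * ‖x - v j - m‖ ^ 2
        = W * ‖x - m‖ ^ 2 + 2 * (W * ⟪x - m, m⟫) + ∑ j, w j * ‖v j‖ ^ 2 := by
      have h2 : ∀ j, w j * ‖x - v j - m‖ ^ 2
          = w j * ‖x - m‖ ^ 2 - 2 * (w j * ⟪x - m, v j⟫) + w j * ‖v j‖ ^ 2 := by
        intro j; rw [hsq j]; ring
      simp_rw [h2]
      rw [Finset.sum_add_distrib, Finset.sum_sub_distrib, ← Finset.sum_mul, ← Finset.mul_sum,
        hinner]
      ring
    have h3 : ‖x - m‖ ^ 2 = ‖x‖ ^ 2 - 2 * ⟪x, m⟫ + ‖m‖ ^ 2 := norm_sub_sq_real x m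
    have h4 : ⟪x - m, m⟫ = ⟪x, m⟫ - ‖m‖ ^ 2 := by
      rw [inner_sub_left, real_inner_self_eq_norm_sq]
    have h5 : ∑ j, w j * ‖v j‖ ^ 2 ≤ W := by
      rw [hW]
      refine Finset.sum_le_sum fun j _ => ?_
      have : ‖v j‖ ^ 2 ≤ 1 := by
        have := hv j
        have h0 := norm_nonneg (v j)
        nlinarith
      nlinarith [hw j]
    have h6 : ‖x‖ ^ 2 ≤ 1 := by
      have h0 := norm_nonneg x
      nlinarith
    rw [h1, h3, h4]
    have h7 : 0 ≤ W * ‖m‖ ^ 2 := by positivity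
    have h8 : W * ‖x‖ ^ 2 ≤ W := by nlinarith
    nlinarith
  have hcs : (∑ j, w j * ‖x - v j - m‖) ^ 2 ≤ (∑ j, w j) * ∑ j, w j * ‖x - v j - m‖ ^ 2 := by
    apply Finset.sum_sq_le_sum_mul_sum_of_sq_le_mul
    · intro i _; exact hw i
    · intro i _; have := hw i; positivity
    · intro i _; exact le_of_eq (by ring)
  have h9 : (∑ j, w j * ‖x - v j - m‖) ^ 2 ≤ (√2 * W) ^ 2 := by
    rw [mul_pow, Real.sq_sqrt (by norm_num : (0 : ℝ) ≤ 2)]
    refine hcs.trans ?_
    rw [← hW]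
    nlinarith
  exact abs_le_of_sq_le_sq' h9 (by positivity) |>.2

/-- The main inequality: if `∑ w_i (u_i + v_i) = 0` where `u_i, v_i` are the directions of
`a_i, c_i`, and the identity matching of the `a_i` with the `c_i` has maximal sum, then
`∑ w_i (‖a_i‖ + ‖c_i‖) ≤ √2 ∑ w_i ‖a_i - c_i‖`. -/
lemma key_ineq [DecidableEq ι] (w : ι → ℝ) (hw : ∀ i, 0 ≤ w i) (a c : ι → E)
    (hfo : ∑ i, w i • unit (a i) + ∑ i, w i • unit (c i) = 0)
    (hmax : ∀ σ : Equiv.Perm ι, ∑ i, ‖a i - c (σ i)‖ ≤ ∑ i, ‖a i - c i‖) :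
    ∑ i, w i * (‖a i‖ + ‖c i‖) ≤ √2 * ∑ i, w i * ‖a i - c i‖ := by
  set W := ∑ j, w j with hW
  have hW0 : 0 ≤ W := Finset.sum_nonneg fun i _ => hw i
  rcases hW0.eq_or_lt with hWz | hWpos
  · have hz : ∀ i, w i = 0 := fun i =>
      (Finset.sum_eq_zero_iff_of_nonneg fun i _ => hw i).1 hWz.symm i (Finset.mem_univ i)
    simp [hz]
  set M := ∑ i, w i • unit (a i) with hM
  set m := W⁻¹ • M with hm
  have hMm : M = W • m := by rw [hm, smul_smul, mul_inv_cancel₀ hWpos.ne', one_smul]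
  have hMc : ∑ i, w i • unit (c i) = -(W • m) := by
    rw [← hMm]; exact (neg_eq_of_add_eq_zero_right hfo).symm
  have s2 : (0 : ℝ) < √2 := by positivity
  clear_value W
  set p : ι → ι → ℝ := fun i j => w i * w j * ‖unit (a i) - unit (c j) - m‖ / (√2 * W) with hp
  have hp0 : ∀ i j, 0 ≤ p i j := fun i j => by
    have := hw i; have := hw j
    simp only [hp]; positivity
  have hrow : ∀ i, ∑ j, p i j ≤ w i := by
    intro i
    have h1 := row_sum_le w hw (fun j => unit (c j)) (fun j => norm_unit_le _) (unit (a i)) m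
      (norm_unit_le _) (by rw [hMc, ← hW])
    have h2 : ∑ j, p i j = w i * (∑ j, w j * ‖unit (a i) - unit (c j) - m‖) / (√2 * W) := by
      simp only [hp]
      rw [← Finset.sum_div, Finset.mul_sum]
      simp only [mul_assoc]
    rw [← hW] at h1
    rw [h2, div_le_iff₀ (by positivity)]
    exact mul_le_mul_of_nonneg_left h1 (hw i)
  have hcol : ∀ j, ∑ i, p i j ≤ w j := by
    intro j
    have h0 : ∑ i, w i • unit (a i) = -((∑ i, w i) • (-m)) := by
      rw [← hM, hMm, ← hW, smul_neg, neg_neg]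
    have h1 := row_sum_le w hw (fun i => unit (a i)) (fun i => norm_unit_le _) (unit (c j)) (-m)
      (norm_unit_le _) h0
    have h2 : ∑ i, p i j = w j * (∑ i, w i * ‖unit (c j) - unit (a i) - (-m)‖) / (√2 * W) := by
      simp only [hp]
      rw [← Finset.sum_div, Finset.mul_sum]
      congr 1
      apply Finset.sum_congr rfl
      intro i _
      have : unit (c j) - unit (a i) - (-m) = -(unit (a i) - unit (c j) - m) := by abel
      rw [this, norm_neg]; ring
    rw [← hW] at h1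
    rw [h2, div_le_iff₀ (by positivity)]
    exact mul_le_mul_of_nonneg_left h1 (hw j)
  have htr := transport_le w hw p (fun i j => ‖a i - c j‖) hp0 (fun i j => norm_nonneg _) hrow hcol
    hmax
  -- the lower bound for the transport sum
  have hlow : ∀ i j, w i * w j * (‖a i‖ * (‖unit (a i)‖ ^ 2 - ⟪unit (a i), unit (c j)⟫
        - ⟪unit (a i), m⟫) + ‖c j‖ * (‖unit (c j)‖ ^ 2 - ⟪unit (a i), unit (c j)⟫
        + ⟪unit (c j), m⟫)) ≤ (√2 * W) * (p i j * ‖a i - c j‖) := by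
    intro i j
    have h1 : (√2 * W) * (p i j * ‖a i - c j‖)
        = w i * w j * (‖a i - c j‖ * ‖unit (a i) - unit (c j) - m‖) := by
      simp only [hp]
      field_simp
    rw [h1]
    refine mul_le_mul_of_nonneg_left ?_ (mul_nonneg (hw i) (hw j))
    refine le_trans (le_of_eq ?_) (real_inner_le_norm (a i - c j) (unit (a i) - unit (c j) - m))
    have h2 : a i - c j = ‖a i‖ • unit (a i) - ‖c j‖ • unit (c j) := by
      rw [norm_smul_unit, norm_smul_unit]
    conv_rhs => rw [h2]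
    simp only [inner_sub_left, inner_sub_right, real_inner_smul_left]
    rw [real_inner_self_eq_norm_sq, real_inner_self_eq_norm_sq,
      real_inner_comm (unit (a i)) (unit (c j))]
    ring
  have hsumlow : ∑ i, ∑ j, w i * w j * (‖a i‖ * (‖unit (a i)‖ ^ 2 - ⟪unit (a i), unit (c j)⟫
        - ⟪unit (a i), m⟫) + ‖c j‖ * (‖unit (c j)‖ ^ 2 - ⟪unit (a i), unit (c j)⟫
        + ⟪unit (c j), m⟫)) = W * ∑ i, w i * (‖a i‖ + ‖c i‖) := by
    have hA : ∑ i, ∑ j, w i * w j * (‖a i‖ * (‖unit (a i)‖ ^ 2 - ⟪unit (a i), unit (c j)⟫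
        - ⟪unit (a i), m⟫)) = W * ∑ i, w i * ‖a i‖ := by
      rw [Finset.mul_sum]
      refine Finset.sum_congr rfl fun i _ => ?_
      have h1 : ∑ j, w j * ⟪unit (a i), unit (c j)⟫ = - (W * ⟪unit (a i), m⟫) := by
        have : ∑ j, w j * ⟪unit (a i), unit (c j)⟫
            = ⟪unit (a i), ∑ j, w j • unit (c j)⟫ := by
          rw [inner_sum]
          exact Finset.sum_congr rfl fun j _ => by rw [real_inner_smul_right]
        rw [this, hMc, inner_neg_right, real_inner_smul_right]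
      have h2 : ∑ j, w i * w j * (‖a i‖ * (‖unit (a i)‖ ^ 2 - ⟪unit (a i), unit (c j)⟫
          - ⟪unit (a i), m⟫)) = w i * ‖a i‖ * (W * ‖unit (a i)‖ ^ 2
          - ∑ j, w j * ⟪unit (a i), unit (c j)⟫ - W * ⟪unit (a i), m⟫) := by
        rw [hW, Finset.sum_mul, Finset.sum_mul, ← Finset.sum_sub_distrib,
          ← Finset.sum_sub_distrib, Finset.mul_sum]
        exact Finset.sum_congr rfl fun j _ => by ring
      rw [h2, h1]
      have h3 := norm_mul_norm_unit_sq (a i)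
      calc w i * ‖a i‖ * (W * ‖unit (a i)‖ ^ 2 - -(W * ⟪unit (a i), m⟫) - W * ⟪unit (a i), m⟫)
          = W * (w i * (‖a i‖ * ‖unit (a i)‖ ^ 2)) := by ring
        _ = W * (w i * ‖a i‖) := by rw [h3]
    have hC : ∑ i, ∑ j, w i * w j * (‖c j‖ * (‖unit (c j)‖ ^ 2 - ⟪unit (a i), unit (c j)⟫
        + ⟪unit (c j), m⟫)) = W * ∑ i, w i * ‖c i‖ := by
      rw [Finset.sum_comm, Finset.mul_sum]
      refine Finset.sum_congr rfl fun j _ => ?_
      have h1 : ∑ i, w i * ⟪unit (a i), unit (c j)⟫ = W * ⟪unit (c j), m⟫ := by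
        have : ∑ i, w i * ⟪unit (a i), unit (c j)⟫
            = ⟪∑ i, w i • unit (a i), unit (c j)⟫ := by
          rw [sum_inner]
          exact Finset.sum_congr rfl fun j _ => by rw [real_inner_smul_left]
        rw [this, ← hM, hMm, real_inner_smul_left, real_inner_comm]
      have h2 : ∑ i, w i * w j * (‖c j‖ * (‖unit (c j)‖ ^ 2 - ⟪unit (a i), unit (c j)⟫
          + ⟪unit (c j), m⟫)) = w j * ‖c j‖ * (W * ‖unit (c j)‖ ^ 2
          - ∑ i, w i * ⟪unit (a i), unit (c j)⟫ + W * ⟪unit (c j), m⟫) := by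
        rw [hW, Finset.sum_mul, Finset.sum_mul, ← Finset.sum_sub_distrib,
          ← Finset.sum_add_distrib, Finset.mul_sum]
        exact Finset.sum_congr rfl fun j _ => by ring
      rw [h2, h1]
      have h3 := norm_mul_norm_unit_sq (c j)
      calc w j * ‖c j‖ * (W * ‖unit (c j)‖ ^ 2 - W * ⟪unit (c j), m⟫ + W * ⟪unit (c j), m⟫)
          = W * (w j * (‖c j‖ * ‖unit (c j)‖ ^ 2)) := by ring
        _ = W * (w j * ‖c j‖) := by rw [h3]
    have hsplit : ∑ i, ∑ j, w i * w j * (‖a i‖ * (‖unit (a i)‖ ^ 2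
        - ⟪unit (a i), unit (c j)⟫
        - ⟪unit (a i), m⟫) + ‖c j‖ * (‖unit (c j)‖ ^ 2 - ⟪unit (a i), unit (c j)⟫
        + ⟪unit (c j), m⟫))
        = ∑ i, ∑ j, w i * w j * (‖a i‖ * (‖unit (a i)‖ ^ 2 - ⟪unit (a i), unit (c j)⟫
        - ⟪unit (a i), m⟫))
        + ∑ i, ∑ j, w i * w j * (‖c j‖ * (‖unit (c j)‖ ^ 2 - ⟪unit (a i), unit (c j)⟫
        + ⟪unit (c j), m⟫)) := by
      rw [← Finset.sum_add_distrib]
      refine Finset.sum_congr rfl fun i _ => ?_
      rw [← Finset.sum_add_distrib]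
      exact Finset.sum_congr rfl fun j _ => by ring
    rw [hsplit, hA, hC, ← mul_add, ← Finset.sum_add_distrib]
    congr 1
    exact Finset.sum_congr rfl fun i _ => by ring
  have hge : W * ∑ i, w i * (‖a i‖ + ‖c i‖)
      ≤ (√2 * W) * ∑ i, ∑ j, p i j * ‖a i - c j‖ := by
    rw [← hsumlow, Finset.mul_sum]
    refine Finset.sum_le_sum fun i _ => ?_
    rw [Finset.mul_sum]
    exact Finset.sum_le_sum fun j _ => hlow i j
  have hle : (√2 * W) * ∑ i, ∑ j, p i j * ‖a i - c j‖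
      ≤ (√2 * W) * ∑ i, w i * ‖a i - c i‖ :=
    mul_le_mul_of_nonneg_left htr (by positivity)
  have hfin : W * ∑ i, w i * (‖a i‖ + ‖c i‖) ≤ W * (√2 * ∑ i, w i * ‖a i - c i‖) := by
    refine (hge.trans hle).trans (le_of_eq (by ring))
  exact le_of_mul_le_mul_left hfin hWpos

end Key

/-! ## The minimiser and its first order condition -/

section Minimiser

variable {ι : Type*} [Fintype ι]
variable {E : Type*} [NormedAddCommGroup E] [InnerProductSpace ℝ E]

/-- Upper quadratic bound for the norm. -/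
lemma norm_sub_le_quad (a h : E) (ha : a ≠ 0) :
    ‖a - h‖ ≤ ‖a‖ - ⟪unit a, h⟫ + ‖h‖ ^ 2 * (2 * ‖a‖)⁻¹ := by
  have hpos : 0 < ‖a‖ := norm_pos_iff.2 ha
  have h1 : ‖a - h‖ ^ 2 = ‖a‖ ^ 2 - 2 * ⟪a, h⟫ + ‖h‖ ^ 2 := norm_sub_sq_real a h
  have h2 : ⟪unit a, h⟫ = ⟪a, h⟫ / ‖a‖ := by
    unfold unit
    rw [real_inner_smul_left]; field_simp
  rw [h2]
  have h3 : ‖a - h‖ * (2 * ‖a‖) ≤ ‖a‖ ^ 2 + ‖a - h‖ ^ 2 := by nlinarith [sq_nonneg (‖a‖ - ‖a - h‖)]
  have h4 : ‖a‖ - ⟪a, h⟫ / ‖a‖ + ‖h‖ ^ 2 * (2 * ‖a‖)⁻¹ = (‖a‖ ^ 2 + ‖a - h‖ ^ 2) / (2 * ‖a‖) := by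
    rw [h1]; field_simp; ring
  rw [h4, le_div_iff₀ (by positivity)]
  exact h3

/-- The excess function `F_i`. -/
noncomputable def exc (r b o : E) : ℝ := ‖r - o‖ + ‖b - o‖ - √2 * ‖r - b‖

omit [InnerProductSpace ℝ E] in
lemma exc_continuous (r b : E) : Continuous (exc r b) := by
  unfold exc; fun_prop

/-- First order condition at a minimiser of `∑ (F_i⁺)²`. -/
lemma first_order (r b : ι → E) (o : E)
    (hmin : ∀ x, ∑ i, (max (exc (r i) (b i) o) 0) ^ 2 ≤ ∑ i, (max (exc (r i) (b i) x) 0) ^ 2) :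
    ∑ i, (max (exc (r i) (b i) o) 0) • unit (r i - o)
      + ∑ i, (max (exc (r i) (b i) o) 0) • unit (b i - o) = 0 := by
  set w : ι → ℝ := fun i => max (exc (r i) (b i) o) 0 with hw
  set G : E := ∑ i, w i • unit (r i - o) + ∑ i, w i • unit (b i - o) with hG
  set s : ι → ℝ := fun i => ⟪unit (r i - o), G⟫ + ⟪unit (b i - o), G⟫ with hs
  set K : ι → ℝ := fun i => ‖G‖ ^ 2 * ((2 * ‖r i - o‖)⁻¹ + (2 * ‖b i - o‖)⁻¹) with hK
  set ψ : ℝ → ℝ := fun ε => ∑ i, ((w i - ε * s i + ε ^ 2 * K i) ^ 2 + 4 * ε ^ 2 * ‖G‖ ^ 2) with hψ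
  -- pointwise bound
  have hpt : ∀ (ε : ℝ) (i : ι), (max (exc (r i) (b i) (o + ε • G)) 0) ^ 2
      ≤ (w i - ε * s i + ε ^ 2 * K i) ^ 2 + 4 * ε ^ 2 * ‖G‖ ^ 2 := by
    intro ε i
    have hr : r i - (o + ε • G) = (r i - o) - ε • G := by abel
    have hb : b i - (o + ε • G) = (b i - o) - ε • G := by abel
    by_cases hpos : 0 < exc (r i) (b i) o
    · have hwi : w i = exc (r i) (b i) o := max_eq_left hpos.le
      have hne1 : r i - o ≠ 0 := by
        intro h0
        have : o = r i := (sub_eq_zero.1 h0).symm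
        subst this
        have h5 : exc (r i) (b i) (r i) = (1 - √2) * ‖r i - b i‖ := by
          unfold exc
          rw [sub_self, norm_zero, norm_sub_rev (b i) (r i)]; ring
        rw [h5] at hpos
        have : (1 : ℝ) ≤ √2 := by
          rw [Real.one_le_sqrt]; norm_num
        nlinarith [norm_nonneg (r i - b i)]
      have hne2 : b i - o ≠ 0 := by
        intro h0
        have : o = b i := (sub_eq_zero.1 h0).symm
        subst this
        have h5 : exc (r i) (b i) (b i) = (1 - √2) * ‖r i - b i‖ := by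
          unfold exc
          rw [sub_self, norm_zero]; ring
        rw [h5] at hpos
        have : (1 : ℝ) ≤ √2 := by
          rw [Real.one_le_sqrt]; norm_num
        nlinarith [norm_nonneg (r i - b i)]
      have h1 := norm_sub_le_quad (r i - o) (ε • G) hne1
      have h2 := norm_sub_le_quad (b i - o) (ε • G) hne2
      rw [real_inner_smul_right] at h1 h2
      have hn : ‖ε • G‖ ^ 2 = ε ^ 2 * ‖G‖ ^ 2 := by
        rw [norm_smul, mul_pow, Real.norm_eq_abs, sq_abs]
      rw [hn] at h1 h2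
      have hle : exc (r i) (b i) (o + ε • G) ≤ w i - ε * s i + ε ^ 2 * K i := by
        rw [hwi]
        simp only [exc, hs, hK, hr, hb]
        nlinarith
      have h4 : (max (exc (r i) (b i) (o + ε • G)) 0) ^ 2
          ≤ (w i - ε * s i + ε ^ 2 * K i) ^ 2 := by
        rcases le_total (exc (r i) (b i) (o + ε • G)) 0 with h | h
        · rw [max_eq_right h]; nlinarith [sq_nonneg (w i - ε * s i + ε ^ 2 * K i)]
        · rw [max_eq_left h]
          exact pow_le_pow_left₀ h hle 2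
      nlinarith [mul_nonneg (sq_nonneg ε) (sq_nonneg ‖G‖)]
    · have hle0 : exc (r i) (b i) o ≤ 0 := not_lt.1 hpos
      have h1 : ‖r i - (o + ε • G)‖ ≤ ‖r i - o‖ + |ε| * ‖G‖ := by
        rw [hr]; refine (norm_sub_le _ _).trans ?_
        rw [norm_smul, Real.norm_eq_abs]
      have h2 : ‖b i - (o + ε • G)‖ ≤ ‖b i - o‖ + |ε| * ‖G‖ := by
        rw [hb]; refine (norm_sub_le _ _).trans ?_
        rw [norm_smul, Real.norm_eq_abs]
      have h3 : exc (r i) (b i) (o + ε • G) ≤ 2 * (|ε| * ‖G‖) := by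
        have : exc (r i) (b i) (o + ε • G) ≤ exc (r i) (b i) o + 2 * (|ε| * ‖G‖) := by
          unfold exc; linarith
        linarith
      have h0 : 0 ≤ 2 * (|ε| * ‖G‖) := by positivity
      have h4 : (max (exc (r i) (b i) (o + ε • G)) 0) ^ 2 ≤ (2 * (|ε| * ‖G‖)) ^ 2 :=
        pow_le_pow_left₀ (le_max_right _ _) (max_le h3 h0) 2
      have h5 : (2 * (|ε| * ‖G‖)) ^ 2 = 4 * ε ^ 2 * ‖G‖ ^ 2 := by
        rw [mul_pow, mul_pow, sq_abs]; ring
      rw [h5] at h4
      nlinarith [sq_nonneg (w i - ε * s i + ε ^ 2 * K i)]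
  have hψ0 : ψ 0 = ∑ i, (w i) ^ 2 := by
    simp [hψ]
  have hψmin : IsLocalMin ψ 0 := by
    refine Filter.Eventually.of_forall fun ε => ?_
    rw [hψ0]
    refine (hmin (o + ε • G)).trans ?_
    exact Finset.sum_le_sum fun i _ => hpt ε i
  have hder : HasDerivAt ψ (∑ i, (2 * w i * (-(s i)))) 0 := by
    have h1 : ∀ i ∈ (Finset.univ : Finset ι), HasDerivAt
        (fun ε : ℝ => (w i - ε * s i + ε ^ 2 * K i) ^ 2 + 4 * ε ^ 2 * ‖G‖ ^ 2)
        (2 * w i * (-(s i))) 0 := by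
      intro i _
      have hid : HasDerivAt (fun ε : ℝ => ε) 1 0 := hasDerivAt_id 0
      have ha := (hid.mul_const (s i)).const_sub (w i)
      have hb := (hid.fun_pow 2).mul_const (K i)
      have hB := (ha.fun_add hb).fun_pow 2
      have hC := ((hid.fun_pow 2).const_mul 4).mul_const (‖G‖ ^ 2)
      refine (hB.fun_add hC).congr_deriv ?_
      norm_num
    have h2 := HasDerivAt.fun_sum h1
    exact h2
  have hzero := hψmin.hasDerivAt_eq_zero hder
  have hGG : ∑ i, w i * s i = ‖G‖ ^ 2 := by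
    rw [← real_inner_self_eq_norm_sq]
    conv_rhs => rw [hG, inner_add_left, sum_inner, sum_inner]
    rw [← Finset.sum_add_distrib]
    refine Finset.sum_congr rfl fun i _ => ?_
    rw [real_inner_smul_left, real_inner_smul_left]
    simp only [hs]; ring
  have h6 : ∑ i, (2 * w i * (-(s i))) = -2 * ∑ i, w i * s i := by
    rw [Finset.mul_sum]
    exact Finset.sum_congr rfl fun i _ => by ring
  rw [h6, hGG] at hzero
  have h7 : ‖G‖ ^ 2 = 0 := by linarith
  have h8 : ‖G‖ = 0 := by simpa using h7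
  exact norm_eq_zero.1 h8

/-- Existence of a minimiser in finite dimension. -/
lemma exists_minimiser [FiniteDimensional ℝ E] [Nonempty ι] (r b : ι → E) :
    ∃ o : E, ∀ x, ∑ i, (max (exc (r i) (b i) o) 0) ^ 2
      ≤ ∑ i, (max (exc (r i) (b i) x) 0) ^ 2 := by
  have hcont : Continuous fun x : E => ∑ i, (max (exc (r i) (b i) x) 0) ^ 2 := by
    refine continuous_finsetSum _ fun i _ => ?_
    exact ((exc_continuous (r i) (b i)).max continuous_const).pow 2
  have i0 : ι := Classical.arbitrary ι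
  have : ProperSpace E := FiniteDimensional.proper ℝ E
  have hlim : Tendsto (fun x : E => ∑ i, (max (exc (r i) (b i) x) 0) ^ 2) (cocompact E) atTop := by
    have h1 : ∀ x : E, 2 * (‖x‖ - (‖r i0‖ + √2 * ‖r i0 - b i0‖)) - 1
        ≤ ∑ i, (max (exc (r i) (b i) x) 0) ^ 2 := by
      intro x
      have h2 : (max (exc (r i0) (b i0) x) 0) ^ 2 ≤ ∑ i, (max (exc (r i) (b i) x) 0) ^ 2 :=
        Finset.single_le_sum (f := fun i => (max (exc (r i) (b i) x) 0) ^ 2)
          (fun i _ => sq_nonneg _) (Finset.mem_univ i0)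
      refine le_trans ?_ h2
      have h3 : ‖x‖ - ‖r i0‖ ≤ ‖r i0 - x‖ := by
        rw [norm_sub_rev]; exact norm_sub_norm_le x (r i0)
      have h4 : ‖x‖ - (‖r i0‖ + √2 * ‖r i0 - b i0‖) ≤ max (exc (r i0) (b i0) x) 0 := by
        refine le_trans ?_ (le_max_left _ _)
        unfold exc
        have := norm_nonneg (b i0 - x)
        linarith
      nlinarith [sq_nonneg (max (exc (r i0) (b i0) x) 0 - 1)]
    refine tendsto_atTop_mono h1 ?_
    refine tendsto_atTop_add_const_right _ _ ?_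
    refine Tendsto.const_mul_atTop (by norm_num) ?_
    exact tendsto_atTop_add_const_right _ _ (tendsto_norm_cocompact_atTop)
  exact hcont.exists_forall_le hlim

/-- The finite-dimensional statement. -/
theorem main_fd [DecidableEq ι] [FiniteDimensional ℝ E] (r b : ι → E)
    (hmax : ∀ σ : Equiv.Perm ι, ∑ i, ‖r i - b (σ i)‖ ≤ ∑ i, ‖r i - b i‖) :
    ∃ o : E, ∀ i, ‖r i - o‖ + ‖b i - o‖ ≤ √2 * ‖r i - b i‖ := by
  rcases isEmpty_or_nonempty ι with h | h
  · exact ⟨0, fun i => isEmptyElim i⟩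
  obtain ⟨o, ho⟩ := exists_minimiser r b
  refine ⟨o, ?_⟩
  have hfo := first_order r b o ho
  set w : ι → ℝ := fun i => max (exc (r i) (b i) o) 0 with hw
  have hw0 : ∀ i, 0 ≤ w i := fun i => le_max_right _ _
  have hkey := key_ineq w hw0 (fun i => r i - o) (fun i => b i - o) hfo (by
    intro σ
    simpa using hmax σ)
  have h1 : ∑ i, (w i) ^ 2 ≤ 0 := by
    have h2 : ∀ i, (w i) ^ 2 = w i * (‖r i - o‖ + ‖b i - o‖) - √2 * (w i * ‖r i - o - (b i - o)‖) := by
      intro i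
      have h3 : r i - o - (b i - o) = r i - b i := by abel
      rw [h3]
      rcases le_total (exc (r i) (b i) o) 0 with h | h
      · have : w i = 0 := max_eq_right h
        rw [this]; ring
      · have h4 : w i = exc (r i) (b i) o := max_eq_left h
        have h5 : (w i) ^ 2 = w i * exc (r i) (b i) o := by rw [← h4]; ring
        rw [h5]; unfold exc; ring
    simp_rw [h2]
    rw [Finset.sum_sub_distrib, ← Finset.mul_sum]
    linarith
  intro i
  have h2 : (w i) ^ 2 ≤ 0 :=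
    (Finset.single_le_sum (f := fun i => (w i) ^ 2) (fun i _ => sq_nonneg _)
      (Finset.mem_univ i)).trans h1
  have h3 : w i = 0 := by nlinarith [hw0 i]
  have h4 : exc (r i) (b i) o ≤ 0 := by
    rw [← h3]; exact le_max_left _ _
  unfold exc at h4
  linarith

/-- The statement in an arbitrary real inner product space. -/
theorem main [DecidableEq ι] (r b : ι → E)
    (hmax : ∀ σ : Equiv.Perm ι, ∑ i, ‖r i - b (σ i)‖ ≤ ∑ i, ‖r i - b i‖) :
    ∃ o : E, ∀ i, ‖r i - o‖ + ‖b i - o‖ ≤ √2 * ‖r i - b i‖ := by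
  set V : Submodule ℝ E := Submodule.span ℝ (Set.range r ∪ Set.range b) with hV
  have : FiniteDimensional ℝ V :=
    FiniteDimensional.span_of_finite ℝ ((Set.finite_range r).union (Set.finite_range b))
  have hr : ∀ i, r i ∈ V := fun i => Submodule.subset_span (Or.inl ⟨i, rfl⟩)
  have hb : ∀ i, b i ∈ V := fun i => Submodule.subset_span (Or.inr ⟨i, rfl⟩)
  obtain ⟨o, ho⟩ := main_fd (E := V) (fun i => ⟨r i, hr i⟩) (fun i => ⟨b i, hb i⟩) (by
    intro σ
    simpa using hmax σ)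
  exact ⟨o, fun i => by simpa using ho i⟩

end Minimiser

/-! ## The result -/

/-- The real Hilbert space `ℓ²`. -/
abbrev L2 : Type := lp (fun _ : ℕ => ℝ) 2

/-- `n` red points `r_1, …, r_n` and `n` blue points `b_1, …, b_n` of a normed space are given as
families; a perfect red-blue matching is a bijection `τ` (the red point `r_i` is paired with the
blue point `b_{τ i}`).  It is a *max-sum* matching if it maximises the sum of the distances. -/
def IsMaxSumMatching {E : Type*} [NormedAddCommGroup E] {n : ℕ} (r b : Fin n → E)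
    (τ : Equiv.Perm (Fin n)) : Prop :=
  ∀ σ : Equiv.Perm (Fin n), ∑ i, ‖r i - b (σ i)‖ ≤ ∑ i, ‖r i - b (τ i)‖

/-- **Q1 has a positive answer.**  Whenever `n ≥ 1` and `τ` is any red-blue max-sum matching of
`n` red and `n` blue points of `ℓ²`, some point `o` satisfies
`‖r_i - o‖ + ‖b_{τ i} - o‖ ≤ √2 ‖r_i - b_{τ i}‖` for all `i`.  The same holds in every real inner
product space (in particular in every `ℝ^d`). -/
theorem result :
    (∀ n : ℕ, 1 ≤ n → ∀ (r b : Fin n → L2) (τ : Equiv.Perm (Fin n)), IsMaxSumMatching r b τ →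
      ∃ o : L2, ∀ i, ‖r i - o‖ + ‖b (τ i) - o‖ ≤ √2 * ‖r i - b (τ i)‖) ∧
    (∀ (E : Type) [NormedAddCommGroup E] [InnerProductSpace ℝ E] (n : ℕ) (r b : Fin n → E)
      (τ : Equiv.Perm (Fin n)), IsMaxSumMatching r b τ →
      ∃ o : E, ∀ i, ‖r i - o‖ + ‖b (τ i) - o‖ ≤ √2 * ‖r i - b (τ i)‖) := by
  have gen : ∀ (E : Type) [NormedAddCommGroup E] [InnerProductSpace ℝ E] (n : ℕ)
      (r b : Fin n → E) (τ : Equiv.Perm (Fin n)), IsMaxSumMatching r b τ →
      ∃ o : E, ∀ i, ‖r i - o‖ + ‖b (τ i) - o‖ ≤ √2 * ‖r i - b (τ i)‖ := by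
    intro E _ _ n r b τ hτ
    refine main r (fun i => b (τ i)) fun σ => ?_
    have := hτ (σ.trans τ)
    simpa using this
  exact ⟨fun n _ r b τ hτ => gen L2 n r b τ hτ, gen⟩

end Pool.Agent.Results.MP_be7f3b_co.ColorfulFingerhut
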